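import Mathlib

/-!
# Polynomials intertwined with an affine precomposition that is not a symmetry

Over every algebraically closed field `K` of characteristic zero we show:

* for every `d ≥ 2` there are a non-integrable polynomial `P` of degree `d` and an affine map
  `g ∉ Σ(P)` such that `P ∘ g` and `P` are intertwined (namely `P = z ^ d + 1` and
  `g(z) = 2 ^ (d - 1) (z - 1) + 1 / 2`; here `P ∘ g` is affinely conjugate to `P`);
* there are a non-integrable polynomial `P` of degree `9` and a translation `g ∉ Σ(P)` such that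
  `P ∘ g` and `P` are intertwined but not affinely conjugate.

For the second example let `U(z) = z³ + z`, which is odd, `P(z) = U(1 - U(z - 1))`, `g(z) = z + 2`
and `h(z) = -U(z - 1)`. Then `P(h(z) + 2) = U(1 - U(1 - U(z - 1))) = -U(P(z) - 1) = h(P(z))`,
because `U` is odd; so the curve `{(h(w), w)}` is invariant under `(P ∘ g, P)`.
-/

set_option autoImplicit false
set_option linter.unusedSimpArgs false

open Polynomial

namespace Pool.Agent.Results.MP_2eeab0_an.TranslationCounterexample

variable {K : Type*} [Field K]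

/-- The affine map `z ↦ a z + b`, as a polynomial. -/
noncomputable def affine (a b : K) : K[X] := C a * X + C b

/-- The inverse `z ↦ a⁻¹ (z - b)` of the affine map `z ↦ a z + b` (for `a ≠ 0`), as a polynomial. -/
noncomputable def affineInv (a b : K) : K[X] := C a⁻¹ * (X - C b)

/-- The conjugate `A⁻¹ ∘ P ∘ A` of `P` by the affine map `A(z) = a z + b`. -/
noncomputable def conj (a b : K) (P : K[X]) : K[X] := (affineInv a b).comp (P.comp (affine a b))

/-- `P` and `Q` have the same degree and are intertwined: there is an irreducible algebraic curve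
`Z` in the affine plane (the zero set of an irreducible polynomial `F(x, y)`) which is invariant
under the map `(z, w) ↦ (P(z), Q(w))` and projects onto each of the two coordinate axes. -/
def Intertwined (P Q : K[X]) : Prop :=
  P.natDegree = Q.natDegree ∧
    ∃ F : K[X][X], Irreducible F ∧
      (fun p : K × K => (P.eval p.1, Q.eval p.2)) '' {p : K × K | F.evalEval p.1 p.2 = 0} =
        {p : K × K | F.evalEval p.1 p.2 = 0} ∧
      Prod.fst '' {p : K × K | F.evalEval p.1 p.2 = 0} = Set.univ ∧
      Prod.snd '' {p : K × K | F.evalEval p.1 p.2 = 0} = Set.univ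

/-- For a monic and centered polynomial `Q`: the set of all `ζ` such that `z ↦ ζ z` belongs to
`Σ(Q)`. Either `Q = z ^ μ * Q₀(z ^ m)` in reduced form (`Q₀(0) ≠ 0`, and `Q₀` is not of the form
`R(z ^ l)` with `l ≥ 2`), `Q₀ ≠ 1` and `ζ ^ m = 1`; or `Q` is a monomial and `ζ` is a root of
unity. -/
def rotations (Q : K[X]) : Set K :=
  {ζ | (∃ (μ m : ℕ) (Q₀ : K[X]), 1 ≤ m ∧ Q = X ^ μ * Q₀.comp (X ^ m) ∧ Q₀.coeff 0 ≠ 0 ∧
      (∀ l : ℕ, 2 ≤ l → ∀ R : K[X], Q₀ ≠ R.comp (X ^ l)) ∧ Q₀ ≠ 1 ∧ ζ ^ m = 1) ∨
    ((∃ μ : ℕ, Q = X ^ μ) ∧ ∃ k : ℕ, 1 ≤ k ∧ ζ ^ k = 1)}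

/-- The symmetry group `Σ(P)`, as a set of affine maps: all `A ∘ σ ∘ A⁻¹` where `A` is an affine
map such that `A⁻¹ ∘ P ∘ A` is monic and centered, and `σ(z) = ζ z` belongs to
`Σ(A⁻¹ ∘ P ∘ A)`. -/
def symmetries (P : K[X]) : Set K[X] :=
  {g | ∃ a b ζ : K, a ≠ 0 ∧ (conj a b P).Monic ∧ (conj a b P).coeff (P.natDegree - 1) = 0 ∧
    ζ ∈ rotations (conj a b P) ∧ g = (affine a b).comp ((C ζ * X).comp (affineInv a b))}

/-- `T` is the Chebyshev polynomial `T_d`: `T(w + w⁻¹) = w ^ d + w⁻¹ ^ d` for all `w ≠ 0`. -/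
def IsChebyshev (T : K[X]) (d : ℕ) : Prop := ∀ w : K, w ≠ 0 → T.eval (w + w⁻¹) = w ^ d + w⁻¹ ^ d

/-- `P`, of degree `d`, is integrable: affinely conjugate to `z ^ d` or to `± T_d`. -/
def Integrable (P : K[X]) : Prop :=
  ∃ a b : K, a ≠ 0 ∧ (conj a b P = X ^ P.natDegree ∨
    ∃ T : K[X], IsChebyshev T P.natDegree ∧ (conj a b P = T ∨ conj a b P = -T))

theorem eval_affine (a b z : K) : (affine a b).eval z = a * z + b := by simp [affine]

theorem eval_affineInv (a b z : K) : (affineInv a b).eval z = a⁻¹ * (z - b) := by simp [affineInv]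

theorem natDegree_affine (a b : K) (ha : a ≠ 0) : (affine a b).natDegree = 1 := by
  unfold affine
  rw [natDegree_add_C, natDegree_C_mul_X _ ha]

theorem natDegree_affineInv (a b : K) (ha : a ≠ 0) : (affineInv a b).natDegree = 1 := by
  unfold affineInv
  rw [natDegree_C_mul (inv_ne_zero ha), natDegree_X_sub_C]

/-! ### Semiconjugacies give invariant curves -/

/-- The polynomial `F(x, y) = x - h(y)` cutting out the invariant curve. -/
noncomputable def F (h : K[X]) : K[X][X] := Bivariate.swap (X - C h)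

theorem irreducible_F (h : K[X]) : Irreducible (F h) := by
  unfold F
  exact (MulEquiv.irreducible_iff (Bivariate.swap (R := K))).2 (irreducible_X_sub_C _)

theorem evalEval_F (h : K[X]) (x y : K) : (F h).evalEval x y = x - h.eval y := by
  unfold F
  rw [map_sub, Bivariate.swap_Y, Bivariate.swap_C, evalEval_sub, evalEval_C, evalEval_map_C,
    eval_X]

theorem surj [IsAlgClosed K] (Q : K[X]) (hQ : Q.natDegree ≠ 0) (z : K) : ∃ w, Q.eval w = z := by
  have h1 : (Q - C z).degree ≠ 0 := by
    intro h0
    have h2 : (Q - C z).natDegree = 0 := natDegree_eq_of_degree_eq_some h0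
    rw [natDegree_sub_C] at h2
    exact hQ h2
  obtain ⟨w, hw⟩ := IsAlgClosed.exists_root (Q - C z) h1
  refine ⟨w, ?_⟩
  simpa [IsRoot, sub_eq_zero] using hw

/-- If `Q ∘ h = h ∘ P` then `Q` and `P` are intertwined. -/
theorem intertwined_of_semiconj [IsAlgClosed K] (Q P h : K[X]) (hdeg : Q.natDegree = P.natDegree)
    (hP : P.natDegree ≠ 0) (hh : h.natDegree ≠ 0)
    (H : ∀ w, Q.eval (h.eval w) = h.eval (P.eval w)) : Intertwined Q P := by
  refine ⟨hdeg, F h, irreducible_F h, ?_, ?_, ?_⟩
  · ext ⟨x, y⟩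
    simp only [Set.mem_image, Set.mem_ofPred_eq, evalEval_F, Prod.exists, Prod.mk.injEq]
    constructor
    · rintro ⟨z, w, hz, h1, h2⟩
      rw [sub_eq_zero] at hz ⊢
      rw [← h1, ← h2, hz, H]
    · intro hxy
      obtain ⟨w, hw⟩ := surj P hP y
      refine ⟨h.eval w, w, sub_self _, ?_, hw⟩
      rw [H, hw]
      exact (sub_eq_zero.1 hxy).symm
  · rw [Set.eq_univ_iff_forall]
    intro x
    obtain ⟨w, hw⟩ := surj h hh x
    exact ⟨(x, w), by simp [evalEval_F, hw], rfl⟩
  · rw [Set.eq_univ_iff_forall]
    intro y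
    exact ⟨(h.eval y, y), by simp [evalEval_F], rfl⟩

/-! ### Elements of the symmetry group -/

/-- The linear coefficient of an element of `Σ(P)` is a root of unity, and it is not a nontrivial
translation. -/
theorem of_mem_symmetries {P : K[X]} {a b : K} (h : affine a b ∈ symmetries P) :
    (∃ k : ℕ, 1 ≤ k ∧ a ^ k = 1) ∧ (a = 1 → b = 0) := by
  obtain ⟨a', b', ζ, ha', -, -, hζ, hg⟩ := h
  have h0 := congrArg (eval b') hg
  have h1 := congrArg (eval (b' + 1)) hg
  simp only [eval_comp, eval_affine, eval_affineInv, eval_mul, eval_C, eval_X] at h0 h1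
  rw [sub_self, mul_zero, mul_zero, mul_zero, zero_add] at h0
  rw [add_sub_cancel_left, mul_one] at h1
  have h2 : a' * (ζ * a'⁻¹) = ζ := by field_simp
  rw [h2] at h1
  have h3 : a = ζ := by linear_combination h1 - h0
  constructor
  · rw [h3]
    rcases hζ with ⟨μ, m, Q₀, hm, -, -, -, -, h4⟩ | ⟨-, k, hk, h4⟩
    · exact ⟨m, hm, h4⟩
    · exact ⟨k, hk, h4⟩
  · intro h5
    rw [h5] at h0
    linear_combination h0

/-! ### First family: `P = z ^ d + 1` -/

section Family

variable [CharZero K]

theorem family_not_integrable [IsAlgClosed K] (d : ℕ) (hd : 2 ≤ d) :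
    ¬ Integrable (X ^ d + 1 : K[X]) := by
  have hdeg : (X ^ d + 1 : K[X]).natDegree = d := by
    rw [show (1 : K[X]) = C 1 by simp]
    exact natDegree_X_pow_add_C
  have hd0 : (d : K) ≠ 0 := by exact_mod_cast (by omega : d ≠ 0)
  rintro ⟨a, b, ha, hab⟩
  rw [hdeg] at hab
  have hconj : ∀ z : K, (conj a b (X ^ d + 1 : K[X])).eval z = a⁻¹ * ((a * z + b) ^ d + 1 - b) := by
    intro z
    simp [conj, eval_comp, eval_affine, eval_affineInv]
  rcases hab with h1 | ⟨T, hT, h1⟩
  · -- `z ^ d`
    have h2 : (C a⁻¹ * ((C a * X + C b) ^ d + 1 - C b) : K[X]) = X ^ d := by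
      apply Polynomial.funext
      intro z
      have := hconj z
      rw [h1] at this
      rw [this]
      simp
    have e0 := congrArg (eval 0) h2
    have e1 := congrArg (eval 0) (congrArg derivative h2)
    simp only [eval_mul, eval_C, eval_sub, eval_add, eval_pow, eval_X, eval_one, mul_zero,
      zero_add] at e0
    rw [zero_pow (by omega : d ≠ 0)] at e0
    simp only [derivative_mul, derivative_C, zero_mul, zero_add, derivative_sub, derivative_add,
      derivative_pow, derivative_X, derivative_one, eval_mul, eval_C, eval_sub, eval_add, eval_pow,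
      eval_X, mul_zero, mul_one, eval_zero, sub_zero, add_zero, map_natCast, eval_natCast]
      at e1
    rw [zero_pow (by omega : d - 1 ≠ 0), mul_zero] at e1
    have hb : b = 0 := by
      have : a⁻¹ * (d * b ^ (d - 1) * a) = 0 := by simpa using e1
      have h3 : (d : K) * b ^ (d - 1) = 0 := by
        have h4 : a⁻¹ * (d * b ^ (d - 1) * a) = d * b ^ (d - 1) := by field_simp
        rw [← h4]; exact this
      rcases mul_eq_zero.1 h3 with h4 | h4
      · exact absurd h4 hd0
      · exact pow_eq_zero_iff (by omega : d - 1 ≠ 0) |>.1 h4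
    rw [hb, zero_pow (by omega : d ≠ 0)] at e0
    simp [ha] at e0
  · -- `± T_d`
    obtain ⟨s, hs, h2⟩ : ∃ s : K, s ^ 2 = 1 ∧ ∀ z : K,
        a⁻¹ * ((a * z + b) ^ d + 1 - b) = s * T.eval z := by
      rcases h1 with h1 | h1
      · exact ⟨1, by norm_num, fun z => by rw [← hconj, h1, one_mul]⟩
      · exact ⟨-1, by norm_num, fun z => by rw [← hconj, h1, eval_neg]; ring⟩
    -- polynomial identity
    have h3 : ((C a * (X ^ 2 + 1) + C b * X) ^ d + C (1 - b) * X ^ d : K[X]) =
        C (s * a) * (X ^ (2 * d) + 1) := by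
      apply eq_of_infinite_eval_eq
      apply Set.Infinite.mono (s := {w : K | w ≠ 0})
      · intro w hw
        have hw0 : w ≠ 0 := hw
        have h4 := h2 (w + w⁻¹)
        rw [hT w hw0] at h4
        have h5 : (a * (w ^ 2 + 1) + b * w) = w * (a * (w + w⁻¹) + b) := by field_simp
        have h6 : (a * (w + w⁻¹) + b) ^ d + 1 - b = a * (s * (w ^ d + w⁻¹ ^ d)) := by
          rw [← h4]; field_simp
        have h7 : w ^ d * w⁻¹ ^ d = 1 := by rw [← mul_pow, mul_inv_cancel₀ hw0, one_pow]
        simp only [Set.mem_ofPred_eq, eval_add, eval_mul, eval_pow, eval_C, eval_X, eval_one]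
        rw [h5, mul_pow]
        have h8 : w ^ (2 * d) = w ^ d * w ^ d := by rw [two_mul, pow_add]
        rw [h8]
        linear_combination w ^ d * h6 + s * a * h7
      · exact Set.infinite_of_finite_compl (by
          have : {w : K | w ≠ 0}ᶜ = {0} := by ext; simp
          rw [this]; exact Set.finite_singleton _)
    have c0 := congrArg (eval 0) h3
    have c1 := congrArg (eval 0) (congrArg derivative h3)
    have c2 := congrArg (eval 0) (congrArg derivative (congrArg derivative h3))
    have hd' : d ≠ 0 := by omega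
    have h2d : 2 * d ≠ 0 := by omega
    simp only [eval_add, eval_mul, eval_pow, eval_C, eval_X, eval_one, zero_pow hd', zero_pow h2d,
      zero_pow two_ne_zero, zero_add, mul_one, mul_zero, add_zero] at c0
    simp only [derivative_add, derivative_mul, derivative_pow, derivative_C, derivative_X,
      derivative_one, zero_mul, zero_add, mul_one, add_zero, eval_add, eval_mul, eval_pow, eval_C,
      eval_X, eval_one, map_natCast, eval_natCast, mul_zero, zero_pow two_ne_zero,
      Nat.add_one_sub_one, Nat.cast_ofNat, pow_one, eval_ofNat,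
      zero_pow (by omega : d - 1 ≠ 0), zero_pow (by omega : 2 * d - 1 ≠ 0)] at c1
    have hb : b = 0 := by
      have h4 : (d : K) * a ^ (d - 1) * b = 0 := by linear_combination c1
      rcases mul_eq_zero.1 h4 with h5 | h5
      · rcases mul_eq_zero.1 h5 with h6 | h6
        · exact absurd h6 hd0
        · exact absurd (pow_eq_zero_iff (by omega : d - 1 ≠ 0) |>.1 h6) ha
      · exact h5
    subst hb
    rcases Nat.lt_or_ge 2 d with h3d | h3d
    · -- `d ≥ 3`
      simp only [derivative_add, derivative_mul, derivative_pow, derivative_C, derivative_X,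
        derivative_one, zero_mul, zero_add, mul_one, add_zero, eval_add, eval_mul, eval_pow, eval_C,
        eval_X, eval_one, map_natCast, eval_natCast, mul_zero, zero_pow two_ne_zero, eval_zero,
        Nat.add_one_sub_one, Nat.cast_ofNat, pow_one, eval_ofNat, derivative_natCast,
        zero_pow (by omega : d - 1 ≠ 0), zero_pow (by omega : 2 * d - 1 ≠ 0),
        derivative_ofNat, map_zero,
        zero_pow (by omega : d - 1 - 1 ≠ 0), zero_pow (by omega : 2 * d - 1 - 1 ≠ 0)] at c2
      have h4 : (d : K) * a ^ (d - 1) * (a * 2) = 0 := by linear_combination c2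
      rcases mul_eq_zero.1 h4 with h5 | h5
      · rcases mul_eq_zero.1 h5 with h6 | h6
        · exact absurd h6 hd0
        · exact absurd (pow_eq_zero_iff (by omega : d - 1 ≠ 0) |>.1 h6) ha
      · rcases mul_eq_zero.1 h5 with h6 | h6
        · exact ha h6
        · exact two_ne_zero h6
    · -- `d = 2`
      obtain rfl : d = 2 := by omega
      have k1 := congrArg (eval 1) h3
      simp only [eval_add, eval_mul, eval_pow, eval_C, eval_X, eval_one] at k1
      have h4 : a = s := by
        have : a * (a - s) = 0 := by linear_combination c0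
        rcases mul_eq_zero.1 this with h5 | h5
        · exact absurd h5 ha
        · exact sub_eq_zero.1 h5
      rw [h4] at k1
      have : (3 : K) = 0 := by linear_combination k1 - 2 * hs
      norm_num at this

theorem family [IsAlgClosed K] (d : ℕ) (hd : 2 ≤ d) :
    ∃ (P : K[X]) (a b : K), P.natDegree = d ∧ ¬ Integrable P ∧ a ≠ 0 ∧
      affine a b ∉ symmetries P ∧ Intertwined (P.comp (affine a b)) P := by
  have hdeg : (X ^ d + 1 : K[X]).natDegree = d := by
    rw [show (1 : K[X]) = C 1 by simp]
    exact natDegree_X_pow_add_C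
  have h2 : (2 : K) ^ (d - 1) ≠ 0 := pow_ne_zero _ two_ne_zero
  refine ⟨X ^ d + 1, 2 ^ (d - 1), -2 ^ (d - 1) + 1 / 2, hdeg, family_not_integrable d hd, h2, ?_,
    ?_⟩
  · intro hmem
    obtain ⟨⟨k, hk, h3⟩, -⟩ := of_mem_symmetries hmem
    rw [← pow_mul] at h3
    have h4 : (2 : ℕ) ^ ((d - 1) * k) = 1 := by exact_mod_cast h3
    have h5 : (d - 1) * k ≠ 0 := Nat.mul_ne_zero (by omega) (by omega)
    rw [Nat.pow_eq_one] at h4
    omega
  · have h2d : (2 : K) ^ d ≠ 0 := pow_ne_zero _ two_ne_zero
    apply intertwined_of_semiconj _ _ (affine (2 ^ d)⁻¹ (1 - (2 ^ d)⁻¹))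
    · rw [natDegree_comp, natDegree_affine _ _ h2, mul_one]
    · rw [hdeg]; omega
    · rw [natDegree_affine _ _ (inv_ne_zero h2d)]; norm_num
    · intro w
      simp only [eval_comp, eval_affine, eval_add, eval_pow, eval_X, eval_one]
      have h3 : (2 : K) ^ d = 2 * 2 ^ (d - 1) := by
        rw [← pow_succ']; congr 1; omega
      have h4 : (2 : K) ^ (d - 1) * ((2 ^ d)⁻¹ * w + (1 - (2 ^ d)⁻¹)) + (-2 ^ (d - 1) + 1 / 2) =
          w * 2⁻¹ := by
        rw [h3]; field_simp; ring
      rw [h4, mul_pow, inv_pow]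
      ring

end Family

/-! ### Second example: degree `9`, a translation, not affinely conjugate -/

/-- The odd polynomial `U(z) = z³ + z`. -/
noncomputable def U : K[X] := X ^ 3 + X

/-- The polynomial `P(z) = U(1 - U(z - 1))` of degree `9`. -/
noncomputable def P : K[X] := U.comp (1 - U.comp (X - 1))

/-- The semiconjugacy `h(z) = -U(z - 1)`. -/
noncomputable def h : K[X] := -U.comp (X - 1)

theorem eval_U (z : K) : (U : K[X]).eval z = z ^ 3 + z := by simp [U]

theorem eval_P (z : K) : (P : K[X]).eval z =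
    (1 - ((z - 1) ^ 3 + (z - 1))) ^ 3 + (1 - ((z - 1) ^ 3 + (z - 1))) := by
  simp [P, eval_comp, eval_U]

theorem eval_h (z : K) : (h : K[X]).eval z = -((z - 1) ^ 3 + (z - 1)) := by
  simp [h, eval_comp, eval_U]

theorem natDegree_U : (U : K[X]).natDegree = 3 := by
  unfold U
  compute_degree!

theorem natDegree_inner : (1 - (U : K[X]).comp (X - 1)).natDegree = 3 := by
  have h1 : ((U : K[X]).comp (X - 1)).natDegree = 3 := by
    rw [natDegree_comp, natDegree_U, show (X - 1 : K[X]) = X - C 1 by simp, natDegree_X_sub_C]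
  rw [natDegree_sub_eq_right_of_natDegree_lt]
  · exact h1
  · rw [h1]; simp

theorem natDegree_P : (P : K[X]).natDegree = 9 := by
  rw [P, natDegree_comp, natDegree_U, natDegree_inner]

theorem natDegree_h : (h : K[X]).natDegree = 3 := by
  rw [h, natDegree_neg, natDegree_comp, natDegree_U, show (X - 1 : K[X]) = X - C 1 by simp,
    natDegree_X_sub_C]

theorem semiconj (w : K) :
    ((P : K[X]).comp (affine 1 2)).eval ((h : K[X]).eval w) = (h : K[X]).eval ((P : K[X]).eval w) := by
  rw [eval_comp, eval_affine, eval_P, eval_h, eval_h, eval_P]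
  ring

theorem intertwined [IsAlgClosed K] : Intertwined ((P : K[X]).comp (affine 1 2)) P := by
  apply intertwined_of_semiconj _ _ h
  · rw [natDegree_comp, natDegree_affine _ _ one_ne_zero, mul_one]
  · rw [natDegree_P]; norm_num
  · rw [natDegree_h]; norm_num
  · exact semiconj

variable [CharZero K]

/-- The functional identity satisfied when a conjugate of `P` is an odd function is impossible. -/
theorem not_odd (b : K) (hodd : ∀ x : K, (P : K[X]).eval (b + x) + (P : K[X]).eval (b - x) = 2 * b) :
    False := by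
  have h0 := hodd 0
  have h1 := hodd 1
  have h2 := hodd 2
  have h3 := hodd 3
  have h4 := hodd 4
  simp only [eval_P] at h0 h1 h2 h3 h4
  have e8 : (b - 1) = 0 := by
    have : (b - 1) * (9 * 40320 * 2) = 0 := by
      linear_combination (-1 : K) * (70 * h0 - 112 * h1 + 56 * h2 - 16 * h3 + 2 * h4)
    rcases mul_eq_zero.1 this with h | h
    · exact h
    · exfalso
      norm_num at h
  have hb : b = 1 := sub_eq_zero.1 e8
  subst hb
  have : (6 * 720 : K) = 0 := by
    linear_combination (-20 * h0 + 30 * h1 - 12 * h2 + 2 * h3)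
  norm_num at this

theorem not_integrable [IsAlgClosed K] : ¬ Integrable (P : K[X]) := by
  rintro ⟨a, b, ha, hab⟩
  -- the conjugate is an odd function
  have hodd : ∀ z : K, (conj a b (P : K[X])).eval (-z) = -(conj a b (P : K[X])).eval z := by
    rw [natDegree_P] at hab
    rcases hab with h1 | ⟨T, hT, h1⟩
    · intro z
      rw [h1]
      simp only [eval_pow, eval_X]
      ring
    · have hTodd : ∀ z : K, T.eval (-z) = -T.eval z := by
        intro z
        obtain ⟨w, hw⟩ : ∃ w : K, w ^ 2 - z * w + 1 = 0 := by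
          obtain ⟨w, hw⟩ := surj (X ^ 2 - C z * X + 1 : K[X]) (by
            have : (X ^ 2 - C z * X + 1 : K[X]).natDegree = 2 := by compute_degree!
            rw [this]; norm_num) 0
          exact ⟨w, by simpa using hw⟩
        have hw0 : w ≠ 0 := by
          rintro rfl
          simp at hw
        have hz : z = w + w⁻¹ := by
          field_simp
          linear_combination -hw
        have e1 := hT w hw0
        have e2 := hT (-w) (neg_ne_zero.2 hw0)
        rw [hz, e1]
        have : -(w + w⁻¹) = -w + (-w)⁻¹ := by rw [inv_neg]; ring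
        rw [this, e2, inv_neg]
        ring
      rcases h1 with h1 | h1
      · rw [h1]; exact hTodd
      · intro z
        rw [h1, eval_neg, eval_neg, hTodd]
  apply not_odd b
  intro x
  have h1 := hodd (a⁻¹ * x)
  simp only [conj, eval_comp, eval_affine, eval_affineInv] at h1
  have e1 : a * (-(a⁻¹ * x)) + b = b - x := by field_simp; ring
  have e2 : a * (a⁻¹ * x) + b = b + x := by field_simp; ring
  rw [e1, e2] at h1
  have h2 : a⁻¹ * ((P : K[X]).eval (b + x) + (P : K[X]).eval (b - x) - 2 * b) = 0 := by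
    linear_combination h1
  rcases mul_eq_zero.1 h2 with h3 | h3
  · exact absurd h3 (inv_ne_zero ha)
  · linear_combination h3

theorem not_conjugate (a b : K) (ha : a ≠ 0) :
    conj a b (P : K[X]) ≠ (P : K[X]).comp (affine 1 2) := by
  intro hab
  -- put `s = b - a - 1` and `f(y) = P(y + 1)`; then `f(a y + s) = a f(y) + b`
  have H : ∀ y : K, (P : K[X]).eval (a * (y - 1) + b) = a * (P : K[X]).eval (y + 1) + b := by
    intro y
    have h1 := congrArg (eval (y - 1)) hab
    simp only [conj, eval_comp, eval_affine, eval_affineInv] at h1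
    have e2 : 1 * (y - 1) + 2 = y + 1 := by ring
    rw [e2] at h1
    rw [← h1]
    field_simp
    ring
  obtain ⟨s, hs⟩ : ∃ s, b = s + a + 1 := ⟨b - a - 1, by ring⟩
  subst hs
  have H' : ∀ y : K, (1 - ((a * y + s) ^ 3 + (a * y + s))) ^ 3 +
      (1 - ((a * y + s) ^ 3 + (a * y + s))) =
      a * ((1 - (y ^ 3 + y)) ^ 3 + (1 - (y ^ 3 + y))) + (s + a + 1) := by
    intro y
    have h1 := H y
    rw [eval_P, eval_P] at h1
    have e1 : a * (y - 1) + (s + a + 1) - 1 = a * y + s := by ring
    have e2 : y + 1 - 1 = y := by ring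
    rw [e1, e2] at h1
    exact h1
  have hs0 : s = 0 := by
    have h8 : a ^ 8 * s * (9 * 40320) = 0 := by
      linear_combination (-1 : K) * (70 * H' 0 - 56 * H' 1 - 56 * H' (-1) + 28 * H' 2 +
        28 * H' (-2) - 8 * H' 3 - 8 * H' (-3) + H' 4 + H' (-4))
    rcases mul_eq_zero.1 h8 with h9 | h9
    · rcases mul_eq_zero.1 h9 with h10 | h10
      · exact absurd (pow_eq_zero_iff (by norm_num) |>.1 h10) ha
      · exact h10
    · exfalso; norm_num at h9
  subst hs0
  have k0 := H' 0
  have k1 : a * (a * (a ^ 2 + 1) ^ 2 - 4) = 0 := by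
    linear_combination (1 / 6 : K) * (H' 1 + H' (-1) - 2 * H' 0)
  have k2 : a * (a * (4 * a ^ 2 + 1) ^ 2 - 25) = 0 := by
    linear_combination (1 / 24 : K) * (H' 2 + H' (-2) - 2 * H' 0)
  have k3 : a * (a * (9 * a ^ 2 + 1) ^ 2 - 100) = 0 := by
    linear_combination (1 / 54 : K) * (H' 3 + H' (-3) - 2 * H' 0)
  have m1 := (mul_eq_zero.1 k1).resolve_left ha
  have m2 := (mul_eq_zero.1 k2).resolve_left ha
  have m3 := (mul_eq_zero.1 k3).resolve_left ha
  have ha1 : a = 1 := by
    linear_combination (3 / 2 : K) * m1 - (3 / 5 : K) * m2 + (1 / 10 : K) * m3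
  subst ha1
  have : (2 : K) = 0 := by linear_combination -k0
  exact two_ne_zero this

/-- **Negative answer to Q1.** Let `K` be an algebraically closed field of characteristic zero.
(1) For every `d ≥ 2` there are a non-integrable polynomial `P` of degree `d` and an affine map
`g(z) = a z + b`, `a ≠ 0`, with `g ∉ Σ(P)`, such that `P ∘ g` and `P` are intertwined.
(2) There are a non-integrable polynomial `P` and an affine map `g(z) = a z + b`, `a ≠ 0`, with
`g ∉ Σ(P)`, such that `P ∘ g` and `P` are intertwined and not affinely conjugate. -/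
theorem result (K : Type*) [Field K] [IsAlgClosed K] [CharZero K] :
    (∀ d : ℕ, 2 ≤ d → ∃ (P : K[X]) (a b : K), P.natDegree = d ∧ ¬ Integrable P ∧ a ≠ 0 ∧
      affine a b ∉ symmetries P ∧ Intertwined (P.comp (affine a b)) P) ∧
    ∃ (P : K[X]) (a b : K), 2 ≤ P.natDegree ∧ ¬ Integrable P ∧ a ≠ 0 ∧
      affine a b ∉ symmetries P ∧ Intertwined (P.comp (affine a b)) P ∧
      ∀ a' b' : K, a' ≠ 0 → conj a' b' P ≠ P.comp (affine a b) :=
  ⟨family, P, 1, 2, by rw [natDegree_P]; norm_num, not_integrable, one_ne_zero,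
    fun hmem => two_ne_zero ((of_mem_symmetries hmem).2 rfl), intertwined,
    fun a' b' ha' => not_conjugate a' b' ha'⟩

end Pool.Agent.Results.MP_2eeab0_an.TranslationCounterexample
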